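import Pool.Agent.Helper10.RS.Core
import Pool.Agent.Helper51.SigLeo.Modulus
import Pool.Agent.Helper51.RP.Goals2

/-!
# Project RP (MP_fc6b1e_nt), packet CHR
-/

namespace Pool.Agent.Helper10.RP

open NumberField Polynomial Module IsDedekindDomain Pool.Agent.Helper51.SigLeo
  Pool.Agent.Helper51.RP Pool.Agent.Helper10.CHR

theorem s_chr (h1 : S_BIN) : Pool.Agent.Helper51.RP.S_CHR := by
  intro p hp k _ _ _ L K M _ _ _ _ _ _ m δ P hδ hm T S 𝔪₀ v hS hpr lam hlmul hlU hlG hlP hlne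
  classical
  set lm : Mˣ →* Multiplicative (ZMod p) :=
    MonoidHom.mk' (fun x => Multiplicative.ofAdd (lam x)) (fun x y => by rw [hlmul]; rfl) with hlm
  have hlmx : ∀ x, lm x = Multiplicative.ofAdd (lam x) := fun x => rfl
  have hU : ∀ x ∈ S.unit M, lm x = 1 := by
    intro x hx
    rw [hlmx, hlU x hx]
    rfl
  have hst : ∀ w ∈ S, ∀ v, Pool.Agent.Helper38.RS.ConjP K v w → v ∈ S := hS.stable
  have hpr' : ∀ n : HeightOneSpectrum (𝓞 M) →₀ ℤ, ∃ x : Mˣ, ∀ w ∉ S,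
      Pool.Agent.Helper38.RS.ordv w (x : M) = n w := hpr
  have hA : ∀ a : Multiplicative (ZMod p), a ^ p = 1 := by
    intro a
    apply Multiplicative.toAdd.injective
    rw [toAdd_pow, nsmul_eq_mul, ZMod.natCast_self, zero_mul, toAdd_one]
  -- the modulus
  set 𝔫 : Ideal (𝓞 M) := Ideal.span {(p : 𝓞 M) ^ 3} * 𝔪₀ with h𝔫
  have h𝔫S : ∀ w : HeightOneSpectrum (𝓞 M), 𝔫 ≤ w.asIdeal → w ∈ S := by
    intro w hw
    have hwp : w.asIdeal.IsPrime := w.isPrime
    rcases (Ideal.IsPrime.mul_le hwp).1 hw with h2 | h2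
    · rw [Ideal.span_singleton_le_iff_mem] at h2
      have h3 : (p : 𝓞 M) ∈ w.asIdeal := hwp.mem_of_pow_mem 3 h2
      have h4 := (w.valuation_lt_one_iff_mem (K := M) (p : 𝓞 M)).2 h3
      apply hS.abp
      have h5 : ((p : 𝓞 M) : M) = (p : M) := map_natCast (algebraMap (𝓞 M) M) p
      rw [← h5]
      exact h4
    · apply hS.supp
      rw [sup_eq_left.2 h2]
      exact hwp.ne_top
  have hp0 : (p : 𝓞 M) ≠ 0 := by
    exact_mod_cast hp.out.ne_zero
  have h𝔫0 : 𝔫 ≠ ⊥ := by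
    rw [h𝔫]
    refine mul_ne_zero ?_ hS.ne
    intro h
    have h2 : Ideal.span {(p : 𝓞 M) ^ 3} = ⊥ := h
    rw [Ideal.span_singleton_eq_bot] at h2
    exact pow_ne_zero 3 hp0 h2
  set 𝔪 : Ideal (𝓞 M) := 𝔫 * ∏ v ∈ hS.fin.toFinset, v.asIdeal with h𝔪
  have hcop : ∀ w : HeightOneSpectrum (𝓞 M), w.asIdeal ⊔ 𝔪 = ⊤ ↔ w ∉ S :=
    fun w => cop_iff S hS.fin 𝔫 h𝔫S w
  have hle : 𝔪 ≤ 𝔫 := Ideal.mul_le_left
  have hle1 : 𝔫 ≤ Ideal.span {(p : 𝓞 M) ^ 3} := Ideal.mul_le_left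
  have hle2 : 𝔫 ≤ 𝔪₀ := Ideal.mul_le_right
  refine ⟨𝔪, fun I => Multiplicative.toAdd (psi0 S lm I), ⟨mod_ne S hS.fin 𝔫 h𝔫0, ?_, ?_, ?_⟩,
    hcop, ?_, ?_⟩
  · intro I J hI hJ _ _
    rw [psi0_mul hU hpr' hI hJ, toAdd_mul]
  · intro α hα hα1
    have hα0 : (α : M) ≠ 0 := by simpa using hα
    have h2 : lm (Units.mk0 (α : M) hα0) = 1 := by
      rw [hlmx, hlG _ ?_]
      · rfl
      · refine ⟨fun w hw => hS.ray α _ rfl (hle2 (hle hα1)) w hw, ?_⟩
        apply h1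
        intro τ _
        obtain ⟨β, hβ⟩ := Ideal.mem_span_singleton'.1 (hle1 (hle hα1))
        have h3 : (α : M) - 1 = (β : M) * (p : M) ^ 3 := by
          have h4 := congrArg (algebraMap (𝓞 M) M) hβ
          rw [map_mul, map_pow, map_natCast, map_sub, map_one] at h4
          exact h4.symm
        have h5 : τ ((Units.mk0 (α : M) hα0 : Mˣ) : M) - 1 = τ ((α : M) - 1) := by
          rw [map_sub, map_one]; rfl
        rw [h5, h3, map_mul, norm_mul, map_pow, norm_pow, map_natCast]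
        have h6 : ‖(p : k)‖ = 1 / p := by
          have h7 : (p : k) = algebraMap ℚ_[p] k (p : ℚ_[p]) := (map_natCast _ p).symm
          rw [h7, norm_algebraMap', Padic.norm_p, one_div]
        rw [h6]
        have h8 : ‖τ (β : M)‖ ≤ 1 :=
          norm_map_le_one p τ (RingOfIntegers.isIntegral_coe β)
        calc ‖τ (β : M)‖ * (1 / p : ℝ) ^ 3 ≤ 1 * (1 / p : ℝ) ^ 3 :=
              mul_le_mul_of_nonneg_right h8 (by positivity)
          _ = (1 / p : ℝ) ^ 3 := one_mul _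
    rw [psi0_span hU hα (Units.mk0 (α : M) hα0) rfl, h2, toAdd_one]
  · obtain ⟨x, hx⟩ := hlne
    obtain ⟨w, hw, hw1⟩ := exists_prime hU hpr' ⟨x, by
      rw [hlmx]
      intro h
      exact hx (Multiplicative.ofAdd.injective h)⟩
    refine ⟨w.asIdeal, w.ne_bot, (hcop w).2 hw, ?_⟩
    intro h
    exact hw1 (Multiplicative.toAdd.injective h)
  · intro 𝔮 h𝔮 l
    obtain ⟨x, hx⟩ := exists_gen hpr' (Pool.Agent.Helper40.RS.gw (δ ^ l) 𝔮).asIdeal
    have h2 := hlP x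
    have h3 : lm (pol P δ x) = ∏ j ∈ P.support,
        (lm (Units.map (((δ ^ j : M ≃ₐ[K] M) : M →+* M) : M →* M) x)) ^ (P.coeff j).val := by
      unfold pol
      rw [MonoidHom.finsetProd_apply, map_prod]
      apply Finset.prod_congr rfl
      intro j _
      rw [MonoidHom.pow_apply, map_pow]
    have h4 : Multiplicative.toAdd (lm (pol P δ x)) = 0 := by
      rw [hlmx]
      exact h2
    rw [h3, toAdd_prod] at h4
    rw [← h4]
    apply Finset.sum_congr rfl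
    intro j _
    rw [toAdd_pow, nsmul_eq_mul, ZMod.natCast_zmod_val]
    congr 2
    exact psi0_cj hU hst δ l 𝔮 x hx j
  · intro 𝔮 h𝔮 hf x hx hxn
    have h2 := psi0_rel (lam := lm) hU hpr' m p hA δ hδ hm 𝔮 hf x (by
      rw [hlmx, hlG x hx]; rfl) hxn
    have h3 := congrArg Multiplicative.toAdd h2
    rw [toAdd_prod, toAdd_one] at h3
    rw [← h3]
    apply Finset.sum_congr rfl
    intro j _
    rw [toAdd_zpow, zsmul_eq_mul]
    rfl

end Pool.Agent.Helper10.RP
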